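import Mathlib
import Pool.Agent.H297R2.BakerThm

/-!
# Spans over the field of algebraic numbers
-/

set_option autoImplicit false

namespace Pool.Agent.H11Z

open Module Complex

/-- the field of algebraic numbers -/
noncomputable abbrev Qb : IntermediateField ℚ ℂ := algebraicClosure ℚ ℂ

lemma Qb_alg (c : Qb) : IsAlgebraic ℚ (c : ℂ) := mem_algebraicClosure_iff.1 c.2

lemma hQb (x : ℂ) (hx : IsIntegral Qb x) : ∃ c : Qb, algebraMap Qb ℂ c = x := by
  have h0 : Algebra.IsIntegral ℚ Qb := ⟨fun c => by
    have := Qb_alg c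
    rw [isAlgebraic_iff_isIntegral] at this
    exact (isIntegral_algebraMap_iff (algebraMap Qb ℂ).injective).1 this⟩
  have h : IsIntegral ℚ x := isIntegral_trans (R := ℚ) (A := Qb) x hx
  exact ⟨⟨x, mem_algebraicClosure_iff.2 h.isAlgebraic⟩, rfl⟩

/-- the logarithms of algebraic numbers -/
noncomputable def logs : Submodule ℚ ℂ where
  carrier := {x | IsAlgebraic ℚ (cexp x)}
  add_mem' {x y} hx hy := by
    rw [Set.mem_ofPred_eq, Complex.exp_add]
    exact hx.mul hy
  zero_mem' := by
    rw [Set.mem_ofPred_eq, Complex.exp_zero]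
    exact isAlgebraic_one
  smul_mem' q x hx := by
    rw [Set.mem_ofPred_eq] at hx ⊢
    refine IsAlgebraic.of_pow (n := q.den) q.pos ?_
    rw [← Complex.exp_nat_mul, Algebra.smul_def, eq_ratCast]
    have h : (q.den : ℂ) * ((q : ℂ) * x) = (q.num : ℤ) * x := by
      rw [← mul_assoc]
      congr 1
      have := Rat.mul_den_eq_num q
      rw [mul_comm]
      exact_mod_cast this
    rw [h, Complex.exp_int_mul]
    rcases q.num.eq_nat_or_neg with ⟨n, hn | hn⟩
    · rw [hn, zpow_natCast]
      exact hx.pow n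
    · rw [hn, zpow_neg, zpow_natCast]
      exact (hx.pow n).inv

lemma mem_logs {x : ℂ} : x ∈ logs ↔ IsAlgebraic ℚ (cexp x) := Iff.rfl

/-- the theorem of Baker -/
lemma baker_indep {ι : Type} [Fintype ι] {b : ι → ℂ} (h : ∀ i, b i ∈ logs) (hb : LinearIndependent ℚ b) :
    LinearIndependent Qb b := by
  rw [Fintype.linearIndependent_iff]
  intro g hg i
  have h1 := Pool.Agent.H297R2.baker b h hb (fun i => (g i : ℂ)) (fun i => Qb_alg _) hg i
  exact_mod_cast h1

lemma finite_span_Qb (V : Submodule ℚ ℂ) [Module.Finite ℚ V] : Module.Finite Qb (Submodule.span Qb (V : Set ℂ)) := by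
  obtain ⟨s, hs⟩ := Module.Finite.iff_fg.1 (inferInstance : Module.Finite ℚ V)
  have h : Submodule.span Qb (V : Set ℂ) = Submodule.span Qb (s : Set ℂ) := by
    rw [← hs, Submodule.span_span_of_tower]
  rw [h]
  exact Module.Finite.span_of_finite Qb s.finite_toSet

lemma span_basis {V : Submodule ℚ ℂ} {ι : Type} (b : Basis ι ℚ V) :
    Submodule.span Qb (V : Set ℂ) = Submodule.span Qb (Set.range fun i => (b i : ℂ)) := by
  have h : V = Submodule.span ℚ (Set.range fun i => (b i : ℂ)) := by
    have h1 := congrArg (Submodule.map V.subtype) b.span_eq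
    rw [Submodule.map_span, Submodule.map_top, Submodule.range_subtype, ← Set.range_comp] at h1
    exact h1.symm
  conv_lhs => rw [h]
  rw [Submodule.span_span_of_tower]

lemma finrank_span_le (V : Submodule ℚ ℂ) [Module.Finite ℚ V] :
    finrank Qb (Submodule.span Qb (V : Set ℂ)) ≤ finrank ℚ V := by
  have b := Module.finBasis ℚ V
  rw [span_basis b]
  exact (finrank_range_le_card _).trans (by rw [Fintype.card_fin])

lemma finrank_span_logs (V : Submodule ℚ ℂ) [Module.Finite ℚ V] (h : V ≤ logs) :
    finrank Qb (Submodule.span Qb (V : Set ℂ)) = finrank ℚ V := by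
  have b := Module.finBasis ℚ V
  rw [span_basis b]
  have h1 : LinearIndependent ℚ fun i => (b i : ℂ) := by
    have := b.linearIndependent.map' V.subtype (Submodule.ker_subtype V)
    exact this
  have h2 := baker_indep (fun i => h (b i).2) h1
  rw [finrank_span_eq_card h2, Fintype.card_fin]

/-- Logarithms of distinct primes are linearly independent over `ℚ`. -/
theorem log_primes {ι : Type*} [Fintype ι] (P : ι → ℕ) (hP : ∀ i, (P i).Prime)
    (hinj : Function.Injective P) : LinearIndependent ℚ (fun i => Real.log (P i)) := by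
  classical
  rw [← LinearIndependent.iff_fractionRing ℤ ℚ, Fintype.linearIndependent_iff]
  intro c hc j
  have h1 : ∑ i, (c i : ℝ) * Real.log (P i) = 0 := by
    rw [← hc]
    apply Finset.sum_congr rfl
    intro i _
    rw [zsmul_eq_mul]
  have h3 : ∑ i, (((c i).toNat : ℕ) : ℝ) * Real.log (P i) = ∑ i, (((-c i).toNat : ℕ) : ℝ) * Real.log (P i) := by
    rw [← sub_eq_zero, ← Finset.sum_sub_distrib, ← h1]
    apply Finset.sum_congr rfl
    intro i _
    rw [← sub_mul]
    congr 1
    have : ((c i).toNat : ℤ) - ((-c i).toNat : ℤ) = c i := by omega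
    exact_mod_cast this
  have hpos : ∀ i, (0 : ℝ) < P i := fun i => by exact_mod_cast (hP i).pos
  have h4 : ∀ e : ι → ℕ, ∑ i, (e i : ℝ) * Real.log (P i) = Real.log ((∏ i, P i ^ e i : ℕ) : ℝ) := by
    intro e
    push_cast
    rw [Real.log_prod (fun i _ => (pow_pos (hpos i) _).ne')]
    apply Finset.sum_congr rfl
    intro i _
    rw [Real.log_pow]
  rw [h4, h4] at h3
  have hpp : ∀ e : ι → ℕ, 0 < ∏ i, P i ^ e i := fun e =>
    Finset.prod_pos (fun i _ => pow_pos (hP i).pos _)
  have h5 : ∏ i, P i ^ (c i).toNat = ∏ i, P i ^ (-c i).toNat := by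
    have := Real.log_injOn_pos (Set.mem_Ioi.2 (by exact_mod_cast hpp _)) (Set.mem_Ioi.2 (by exact_mod_cast hpp _)) h3
    exact_mod_cast this
  have h6 : ∀ e : ι → ℕ, (∏ i, P i ^ e i).factorization (P j) = e j := by
    intro e
    rw [Nat.factorization_prod (fun i _ => (pow_pos (hP i).pos _).ne')]
    rw [Finsupp.finsetSum_apply, Finset.sum_eq_single j]
    · rw [(hP j).factorization_pow]; simp
    · intro i _ hij
      rw [(hP i).factorization_pow, Finsupp.single_apply, if_neg]
      exact fun h => hij (hinj h)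
    · intro h; exact absurd (Finset.mem_univ _) h
  have h7 := congrArg (fun n => n.factorization (P j)) h5
  simp only [h6] at h7
  omega

/-- the real logarithms and `π i` -/
theorem log_primes_pi {ι : Type} [Fintype ι] (P : ι → ℕ) (hP : ∀ i, (P i).Prime)
    (hinj : Function.Injective P) : LinearIndependent ℚ (fun i : Option ι =>
      i.elim ((Real.pi : ℂ) * Complex.I) fun i => ((Real.log (P i) : ℝ) : ℂ)) := by
  rw [Fintype.linearIndependent_iff]
  intro g hg
  rw [Fintype.sum_option] at hg
  simp only [Option.elim_none, Option.elim_some, Algebra.smul_def, eq_ratCast] at hg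
  have him := congrArg Complex.im hg
  have hre := congrArg Complex.re hg
  have e1 : ∀ i, ((g (some i) : ℂ) * ((Real.log (P i) : ℝ) : ℂ)) = (((g (some i) : ℝ) * Real.log (P i) : ℝ) : ℂ) := by
    intro i
    push_cast
    ring
  have e2 : ((g none : ℂ) * ((Real.pi : ℂ) * Complex.I)) = (((g none : ℝ) * Real.pi : ℝ) : ℂ) * Complex.I := by
    push_cast
    ring
  simp only [e1, e2, ← Complex.ofReal_sum] at him hre
  rw [Complex.add_im, Complex.ofReal_im, add_zero, Complex.mul_I_im, Complex.ofReal_re, Complex.zero_im] at him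
  rw [Complex.add_re, Complex.ofReal_re, Complex.mul_I_re, Complex.ofReal_im, neg_zero, zero_add,
    Complex.zero_re] at hre
  have h1 : g none = 0 := by
    have := (mul_eq_zero.1 him).resolve_right Real.pi_ne_zero
    exact_mod_cast this
  have h2 := Fintype.linearIndependent_iff.1 (log_primes P hP hinj) (fun i => g (some i)) (by
    simp only [Algebra.smul_def, eq_ratCast]
    exact hre)
  intro i
  cases i with
  | none => exact h1
  | some i => exact h2 i

/-- `π / log 2` is not algebraic -/
lemma pi_log_alg (c : ℂ) (hc : IsAlgebraic ℚ c) (h : (Real.pi : ℂ) = c * ((Real.log 2 : ℝ) : ℂ)) : False := by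
  have hI : IsAlgebraic ℚ Complex.I := by
    refine IsAlgebraic.of_pow (n := 2) (by norm_num) ?_
    rw [Complex.I_sq]
    exact isAlgebraic_one.neg
  have h1 := log_primes_pi (ι := Unit) (fun _ => 2) (fun _ => Nat.prime_two) (fun _ _ _ => rfl)
  have h2 := Pool.Agent.H297R2.baker _ (fun i => by
    cases i with
    | none =>
      simp only [Option.elim_none]
      rw [Complex.exp_pi_mul_I]
      exact isAlgebraic_one.neg
    | some i =>
      simp only [Option.elim_some]
      rw [← Complex.ofReal_exp, Real.exp_log (by norm_num)]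
      exact isAlgebraic_algebraMap (2 : ℚ)) h1 (fun i => i.elim 1 fun _ => -(c * Complex.I)) (fun i => by
    cases i with
    | none => exact isAlgebraic_one
    | some i => exact (hc.mul hI).neg) (by
    rw [Fintype.sum_option]
    simp only [Option.elim_none, Option.elim_some, Finset.univ_unique, Finset.sum_singleton]
    rw [h]
    push_cast
    ring) none
  exact one_ne_zero h2

/-- the squares of `π` and `log 2` -/
lemma sq_indep : LinearIndependent Qb ![((Real.pi ^ 2 : ℝ) : ℂ), ((Real.log 2 ^ 2 : ℝ) : ℂ)] := by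
  rw [LinearIndependent.pair_iff]
  intro a b hab
  have hl : ((Real.log 2 : ℝ) : ℂ) ≠ 0 := by
    exact_mod_cast (Real.log_pos (by norm_num : (1 : ℝ) < 2)).ne'
  have hab' : (a : ℂ) * ((Real.pi ^ 2 : ℝ) : ℂ) + (b : ℂ) * ((Real.log 2 ^ 2 : ℝ) : ℂ) = 0 := hab
  by_cases ha : a = 0
  · subst ha
    refine ⟨rfl, ?_⟩
    have h1 : (b : ℂ) * ((Real.log 2 : ℝ) : ℂ) ^ 2 = 0 := by
      rw [← hab']
      push_cast
      ring
    have h2 : (b : ℂ) = 0 := (mul_eq_zero.1 h1).resolve_right (pow_ne_zero 2 hl)
    exact_mod_cast h2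
  · exfalso
    have haC : (a : ℂ) ≠ 0 := by exact_mod_cast ha
    refine pi_log_alg ((Real.pi : ℂ) / ((Real.log 2 : ℝ) : ℂ)) ?_ (by rw [div_mul_cancel₀ _ hl])
    refine IsAlgebraic.of_pow (n := 2) (by norm_num) ?_
    have h1 : ((Real.pi : ℂ) / ((Real.log 2 : ℝ) : ℂ)) ^ 2 = -((b : ℂ) / (a : ℂ)) := by
      rw [div_pow, div_eq_iff (pow_ne_zero 2 hl)]
      field_simp
      push_cast at hab' ⊢
      linear_combination hab'
    rw [h1]
    exact ((Qb_alg b).mul (Qb_alg a).inv).neg

end Pool.Agent.H11Z
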