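import Mathlib

/-!
# The linear Cauchy–Davenport inequality

For a field `K` which is relatively algebraically closed in `L` and nonzero finite-dimensional `K`-subspaces `A`, `B` of
`L` one has `dim A + dim B ≤ dim (A * B) + 1`.
-/

set_option autoImplicit false

namespace Pool.Agent.H11Z

open Module

section
variable {K L : Type} [Field K] [Field L] [Algebra K L]

lemma mulLeft_inj {e : L} (he : e ≠ 0) : Function.Injective (LinearMap.mulLeft K e) := by
  intro x y h
  exact mul_left_cancel₀ he h

/-- the multiple `e A` -/
def sc (e : L) (A : Submodule K L) : Submodule K L := A.map (LinearMap.mulLeft K e)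

lemma mem_sc {e : L} {A : Submodule K L} {x : L} : x ∈ sc e A ↔ ∃ a ∈ A, e * a = x := by
  rw [sc, Submodule.mem_map]
  rfl

lemma finrank_sc {e : L} (he : e ≠ 0) (A : Submodule K L) : finrank K (sc e A) = finrank K A :=
  ((A.equivMapOfInjective _ (mulLeft_inj he)).finrank_eq).symm

lemma finite_sc (e : L) (A : Submodule K L) [Module.Finite K A] : Module.Finite K (sc e A) :=
  Module.Finite.map A _

lemma finite_mul (A B : Submodule K L) [Module.Finite K A] [Module.Finite K B] : Module.Finite K (A * B : Submodule K L) :=
  Module.Finite.iff_fg.2 ((Module.Finite.iff_fg.1 inferInstance).mul (Module.Finite.iff_fg.1 inferInstance))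

lemma exists_ne {A : Submodule K L} (h : A ≠ ⊥) : ∃ a ∈ A, a ≠ 0 := Submodule.exists_mem_ne_zero_of_ne_bot h

lemma finrank_le_mul_left {A B : Submodule K L} [Module.Finite K A] [Module.Finite K B] (hB : B ≠ ⊥) :
    finrank K A ≤ finrank K (A * B : Submodule K L) := by
  obtain ⟨b, hb, hb0⟩ := exists_ne hB
  have := finite_mul A B
  rw [← finrank_sc hb0 A]
  refine Submodule.finrank_mono ?_
  intro x hx
  obtain ⟨a, ha, rfl⟩ := mem_sc.1 hx
  rw [mul_comm b a]
  exact Submodule.mul_mem_mul ha hb

lemma cd_aux (hK : ∀ x : L, IsIntegral K x → ∃ c : K, algebraMap K L c = x) (n : ℕ) :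
    ∀ A B : Submodule K L, A ≠ ⊥ → B ≠ ⊥ → Module.Finite K A → Module.Finite K B → finrank K B = n →
      finrank K A + finrank K B ≤ finrank K (A * B : Submodule K L) + 1 := by
  induction n using Nat.strong_induction_on with
  | _ n ih =>
    intro A B hA hB fA fB hn
    have fAB := finite_mul A B
    by_cases hcase : ∃ a ∈ A, ∃ b ∈ B, a ≠ 0 ∧ b ≠ 0 ∧ ¬ sc (a / b) B ≤ A
    · obtain ⟨a, ha, b, hb, ha0, hb0, hnot⟩ := hcase
      set e : L := a / b with he
      have he0 : e ≠ 0 := div_ne_zero ha0 hb0
      have fS := finite_sc e B
      -- the transform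
      set A' : Submodule K L := A ⊔ sc e B with hA'
      set B' : Submodule K L := B ⊓ A.comap (LinearMap.mulLeft K e) with hB'
      have hscB' : sc e B' = A ⊓ sc e B := by
        ext x
        rw [mem_sc, Submodule.mem_inf, mem_sc]
        constructor
        · rintro ⟨y, hy, rfl⟩
          rw [hB', Submodule.mem_inf, Submodule.mem_comap] at hy
          exact ⟨hy.2, y, hy.1, rfl⟩
        · rintro ⟨h1, y, hy, rfl⟩
          refine ⟨y, ?_, rfl⟩
          rw [hB', Submodule.mem_inf, Submodule.mem_comap]
          exact ⟨hy, h1⟩
      have fB' : Module.Finite K B' := Submodule.finiteDimensional_inf_left B _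
      have fA' : Module.Finite K A' := Submodule.finiteDimensional_sup A (sc e B)
      have h1 : finrank K A' + finrank K B' = finrank K A + finrank K B := by
        have h := Submodule.finrank_sup_add_finrank_inf_eq A (sc e B)
        rw [finrank_sc he0, ← hscB', finrank_sc he0] at h
        exact h
      have hb' : b ∈ B' := by
        rw [hB', Submodule.mem_inf, Submodule.mem_comap, LinearMap.mulLeft_apply, he, div_mul_cancel₀ _ hb0]
        exact ⟨hb, ha⟩
      have hB'0 : B' ≠ ⊥ := fun h => by
        rw [h, Submodule.mem_bot] at hb'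
        exact hb0 hb'
      have hA'0 : A' ≠ ⊥ := fun h => hA (le_bot_iff.1 (h ▸ le_sup_left))
      have hlt : finrank K B' < n := by
        rw [← hn]
        refine Submodule.finrank_lt_finrank_of_lt (lt_of_le_of_ne inf_le_left fun h => hnot ?_)
        intro x hx
        obtain ⟨y, hy, rfl⟩ := mem_sc.1 hx
        rw [← h, hB', Submodule.mem_inf, Submodule.mem_comap] at hy
        exact hy.2
      have h2 := ih _ hlt A' B' hA'0 hB'0 fA' fB' rfl
      have h3 : (A' * B' : Submodule K L) ≤ A * B := by
        rw [hA', Submodule.sup_mul, sup_le_iff]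
        constructor
        · exact mul_le_mul' le_rfl inf_le_left
        · rw [Submodule.mul_le]
          intro x hx y hy
          obtain ⟨z, hz, rfl⟩ := mem_sc.1 hx
          rw [hB', Submodule.mem_inf, Submodule.mem_comap, LinearMap.mulLeft_apply] at hy
          have : e * z * y = (e * y) * z := by ring
          rw [this]
          exact Submodule.mul_mem_mul hy.2 hz
      have h4 := Submodule.finrank_mono h3
      omega
    · push Not at hcase
      obtain ⟨b, hb, hb0⟩ := exists_ne hB
      have h1 : B ≤ Submodule.span K {b} := by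
        intro y hy
        have h2 : IsIntegral K (y / b) := by
          refine isIntegral_of_smul_mem_submodule A hA (Module.Finite.iff_fg.1 fA) (y / b) fun a ha => ?_
          rcases eq_or_ne a 0 with rfl | ha0
          · rw [smul_zero]
            exact A.zero_mem
          · have := hcase a ha b hb ha0 hb0 (mem_sc.2 ⟨y, hy, rfl⟩)
            rw [smul_eq_mul]
            convert this using 1
            field_simp
        obtain ⟨c, hc⟩ := hK _ h2
        rw [Submodule.mem_span_singleton]
        refine ⟨c, ?_⟩
        rw [Algebra.smul_def, hc, div_mul_cancel₀ _ hb0]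
      have h3 : finrank K B ≤ 1 := (Submodule.finrank_mono h1).trans (by rw [finrank_span_singleton hb0])
      have h4 := finrank_le_mul_left (A := A) hB
      omega

/-- the linear Cauchy–Davenport inequality -/
theorem cd (hK : ∀ x : L, IsIntegral K x → ∃ c : K, algebraMap K L c = x) (A B : Submodule K L) (hA : A ≠ ⊥)
    (hB : B ≠ ⊥) [fA : Module.Finite K A] [fB : Module.Finite K B] :
    finrank K A + finrank K B ≤ finrank K (A * B : Submodule K L) + 1 :=
  cd_aux hK _ A B hA hB fA fB rfl

end

end Pool.Agent.H11Z
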