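import Pool.Agent.H11Z.One

/-!
# The mixed inequality: rational dimensions and dimensions over the algebraic numbers
-/

set_option autoImplicit false

namespace Pool.Agent.H11Z

open Module

section
variable {K L : Type} [Field K] [Field L] [Algebra K L]

/-- algebraic quotients of elements of `B` are in `K` -/
def Quo (B : Submodule K L) : Prop :=
  ∀ x ∈ B, ∀ y ∈ B, y ≠ 0 → IsIntegral K (x / y) → ∃ c : K, algebraMap K L c = x / y

lemma mix_aux (n : ℕ) :
    ∀ A B : Submodule K L, A ≠ ⊥ → B ≠ ⊥ → Quo B → Module.Finite K A → Module.Finite K B → finrank K B = n →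
      finrank K A + finrank K B ≤ finrank K (A * B : Submodule K L) + 1 := by
  induction n using Nat.strong_induction_on with
  | _ n ih =>
    intro A B hA hB hQ fA fB hn
    have fAB := finite_mul A B
    by_cases hcase : ∃ a ∈ A, ∃ b ∈ B, a ≠ 0 ∧ b ≠ 0 ∧ ¬ sc (a / b) B ≤ A
    · obtain ⟨a, ha, b, hb, ha0, hb0, hnot⟩ := hcase
      set e : L := a / b with he
      have he0 : e ≠ 0 := div_ne_zero ha0 hb0
      have fS := finite_sc e B
      set A' : Submodule K L := A ⊔ sc e B with hA'
      set B' : Submodule K L := B ⊓ A.comap (LinearMap.mulLeft K e) with hB'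
      have hscB' : sc e B' = A ⊓ sc e B := by
        ext x
        rw [mem_sc, Submodule.mem_inf, mem_sc]
        constructor
        · rintro ⟨y, hy, rfl⟩
          rw [hB', Submodule.mem_inf, Submodule.mem_comap] at hy
          exact ⟨hy.2, y, hy.1, rfl⟩
        · rintro ⟨h1, y, hy, rfl⟩
          refine ⟨y, ?_, rfl⟩
          rw [hB', Submodule.mem_inf, Submodule.mem_comap]
          exact ⟨hy, h1⟩
      have fB' : Module.Finite K B' := Submodule.finiteDimensional_inf_left B _
      have fA' : Module.Finite K A' := Submodule.finiteDimensional_sup A (sc e B)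
      have h1 : finrank K A' + finrank K B' = finrank K A + finrank K B := by
        have h := Submodule.finrank_sup_add_finrank_inf_eq A (sc e B)
        rw [finrank_sc he0, ← hscB', finrank_sc he0] at h
        exact h
      have hb' : b ∈ B' := by
        rw [hB', Submodule.mem_inf, Submodule.mem_comap, LinearMap.mulLeft_apply, he, div_mul_cancel₀ _ hb0]
        exact ⟨hb, ha⟩
      have hB'0 : B' ≠ ⊥ := fun h => by
        rw [h, Submodule.mem_bot] at hb'
        exact hb0 hb'
      have hA'0 : A' ≠ ⊥ := fun h => hA (le_bot_iff.1 (h ▸ le_sup_left))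
      have hQ' : Quo B' := fun x hx y hy => hQ x hx.1 y hy.1
      have hlt : finrank K B' < n := by
        rw [← hn]
        refine Submodule.finrank_lt_finrank_of_lt (lt_of_le_of_ne inf_le_left fun h => hnot ?_)
        intro x hx
        obtain ⟨y, hy, rfl⟩ := mem_sc.1 hx
        rw [← h, hB', Submodule.mem_inf, Submodule.mem_comap] at hy
        exact hy.2
      have h2 := ih _ hlt A' B' hA'0 hB'0 hQ' fA' fB' rfl
      have h3 : (A' * B' : Submodule K L) ≤ A * B := by
        rw [hA', Submodule.sup_mul, sup_le_iff]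
        constructor
        · exact mul_le_mul' le_rfl inf_le_left
        · rw [Submodule.mul_le]
          intro x hx y hy
          obtain ⟨z, hz, rfl⟩ := mem_sc.1 hx
          rw [hB', Submodule.mem_inf, Submodule.mem_comap, LinearMap.mulLeft_apply] at hy
          have : e * z * y = (e * y) * z := by ring
          rw [this]
          exact Submodule.mul_mem_mul hy.2 hz
      have h4 := Submodule.finrank_mono h3
      omega
    · push Not at hcase
      obtain ⟨b, hb, hb0⟩ := exists_ne hB
      have h1 : B ≤ Submodule.span K {b} := by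
        intro y hy
        have h2 : IsIntegral K (y / b) := by
          refine isIntegral_of_smul_mem_submodule A hA (Module.Finite.iff_fg.1 fA) (y / b) fun a ha => ?_
          rcases eq_or_ne a 0 with rfl | ha0
          · rw [smul_zero]
            exact A.zero_mem
          · have := hcase a ha b hb ha0 hb0 (mem_sc.2 ⟨y, hy, rfl⟩)
            rw [smul_eq_mul]
            convert this using 1
            field_simp
        obtain ⟨c, hc⟩ := hQ y hy b hb hb0 h2
        rw [Submodule.mem_span_singleton]
        refine ⟨c, ?_⟩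
        rw [Algebra.smul_def, hc, div_mul_cancel₀ _ hb0]
      have h3 : finrank K B ≤ 1 := (Submodule.finrank_mono h1).trans (by rw [finrank_span_singleton hb0])
      have h4 := finrank_le_mul_left (A := A) hB
      omega

end

/-- a rational subspace of dimension the dimension over the algebraic numbers -/
lemma exists_sub (V : Submodule ℚ ℂ) [Module.Finite ℚ V] : ∃ B : Submodule ℚ ℂ, B ≤ V ∧ Module.Finite ℚ B ∧
    finrank ℚ B = finrank Qb (Submodule.span Qb (V : Set ℂ)) ∧ Quo B := by
  have hf := finite_span_Qb V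
  obtain ⟨b, hbV, hspan, hli⟩ := exists_linearIndependent Qb (V : Set ℂ)
  have hfin : Finite b := by
    have h1 : LinearIndependent Qb (fun x : b => (⟨x, Submodule.subset_span (hbV x.2)⟩ :
        Submodule.span Qb (V : Set ℂ))) := by
      refine LinearIndependent.of_comp (Submodule.span Qb (V : Set ℂ)).subtype ?_
      exact hli
    exact h1.finite
  have hft : Fintype b := Fintype.ofFinite b
  have hliQ : LinearIndependent ℚ (fun x : b => (x : ℂ)) := by
    refine hli.restrict_scalars (R := ℚ) ?_
    intro x y hxy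
    simp only [Algebra.smul_def, mul_one] at hxy
    exact (algebraMap ℚ Qb).injective hxy
  refine ⟨Submodule.span ℚ b, Submodule.span_le.2 hbV, Module.Finite.span_of_finite ℚ (Set.toFinite b), ?_, ?_⟩
  · rw [← hspan]
    have e1 := finrank_span_eq_card hliQ
    have e2 := finrank_span_eq_card hli
    rw [Subtype.range_coe] at e1 e2
    rw [e1, e2]
  · intro x hx y hy hy0 hint
    have hx' : x ∈ Submodule.span ℚ (Set.range fun z : b => (z : ℂ)) := by
      rw [Subtype.range_coe]
      exact hx
    have hy' : y ∈ Submodule.span ℚ (Set.range fun z : b => (z : ℂ)) := by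
      rw [Subtype.range_coe]
      exact hy
    obtain ⟨p, hp⟩ := (Submodule.mem_span_range_iff_exists_fun ℚ).1 hx'
    obtain ⟨q, hq⟩ := (Submodule.mem_span_range_iff_exists_fun ℚ).1 hy'
    have hα : IsAlgebraic ℚ (x / y) := hint.isAlgebraic
    set α : Qb := ⟨x / y, mem_algebraicClosure_iff.2 hα⟩ with hαd
    have hrel : ∑ z : b, ((algebraMap ℚ Qb (p z)) - α * algebraMap ℚ Qb (q z)) • (z : ℂ) = 0 := by
      have h1 : ∀ z : b, ((algebraMap ℚ Qb (p z)) - α * algebraMap ℚ Qb (q z)) • (z : ℂ) =
          p z • (z : ℂ) - (x / y) * (q z • (z : ℂ)) := by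
        intro z
        rw [Algebra.smul_def, Algebra.smul_def, Algebra.smul_def, map_sub, map_mul]
        rw [← IsScalarTower.algebraMap_apply ℚ Qb ℂ, ← IsScalarTower.algebraMap_apply ℚ Qb ℂ]
        have : algebraMap Qb ℂ α = x / y := rfl
        rw [this]
        ring
      rw [Finset.sum_congr rfl fun z _ => h1 z, Finset.sum_sub_distrib, ← Finset.mul_sum, hp, hq,
        div_mul_cancel₀ _ hy0, sub_self]
    have hz := Fintype.linearIndependent_iff.1 hli _ hrel
    obtain ⟨z, hqz⟩ : ∃ z, q z ≠ 0 := by
      by_contra hcon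
      push Not at hcon
      apply hy0
      rw [← hq]
      exact Finset.sum_eq_zero fun z _ => by rw [hcon z, zero_smul]
    refine ⟨p z / q z, ?_⟩
    have h2 := hz z
    have h3 : α * algebraMap ℚ Qb (q z) = algebraMap ℚ Qb (p z) := (sub_eq_zero.1 h2).symm
    have h4 := congrArg (algebraMap Qb ℂ) h3
    rw [map_mul, ← IsScalarTower.algebraMap_apply ℚ Qb ℂ, ← IsScalarTower.algebraMap_apply ℚ Qb ℂ] at h4
    have h5 : algebraMap Qb ℂ α = x / y := rfl
    rw [h5] at h4
    rw [map_div₀, div_eq_iff ((map_ne_zero _).2 hqz)]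
    exact h4.symm

open Pool.Agent.H43L

section level
variable (N : ℕ) [hN : NeZero N]

/-- the mixed inequality -/
lemma mix_add {a b : ℕ} (ha : Zs N a ≠ ⊥) (hb : Zs N b ≠ ⊥) :
    finrank ℚ (Zs N a) + aD N b ≤ finrank ℚ (Zs N (a + b)) + 1 := by
  have := finZ N a
  have := finZ N b
  have := finZ N (a + b)
  obtain ⟨B, hB, fB, hd, hQ⟩ := exists_sub (Zs N b)
  have h1 : finrank ℚ B = aD N b := hd
  have hB0 : B ≠ ⊥ := fun h => by
    rw [h, finrank_bot] at h1
    have := aD_pos N hb
    omega
  have h2 := mix_aux _ (Zs N a) B ha hB0 hQ inferInstance fB rfl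
  rw [h1] at h2
  refine h2.trans (Nat.add_le_add_right (Submodule.finrank_mono ?_) 1)
  rw [Submodule.mul_le]
  exact fun x hx y hy => Zs_mul N hx (hB hy)

lemma Zn_ne (h2 : 2 ≤ N) (w : ℕ) : Zs N w ≠ ⊥ := by
  induction w with
  | zero => exact Z0_ne N
  | succ w ih => exact Z_ne_add N ih (Z1_ne N h2)

lemma next (h2 : 2 ≤ N) (w : ℕ) : finrank ℚ (Zs N w) + finrank ℚ (Zs N 1) ≤ finrank ℚ (Zs N (w + 1)) + 1 := by
  have h := mix_add N (Zn_ne N h2 w) (Z1_ne N h2)
  rw [aD_one] at h
  exact h

end level

lemma Zw_ne (w : ℕ) : Zs 2 w ≠ ⊥ := Zn_ne 2 le_rfl w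

lemma mono_two (w : ℕ) : finrank ℚ (Zs 2 w) ≤ finrank ℚ (Zs 2 (w + 1)) := by
  have h := mix_add 2 (Zw_ne w) (Z1_ne 2 le_rfl)
  have h1 := aD_pos 2 (Z1_ne 2 le_rfl)
  omega

lemma strict_two (w : ℕ) : finrank ℚ (Zs 2 w) + 1 ≤ finrank ℚ (Zs 2 (w + 2)) := by
  have h := mix_add 2 (Zw_ne w) Z2_ne
  rw [aD_two_two] at h
  omega

end Pool.Agent.H11Z
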