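import Pool.Agent.H43L.Dm

/-!
# Products of values of level `N`
-/

set_option autoImplicit false

namespace Pool.Agent.H11Z

open Finset Filter Topology
open Pool.Agent.H43L
open Pool.Agent.X90.DM (trunc li)

section level
variable (N : ℕ) [hN : NeZero N]

/-- the span of the truncated sums of admissible words -/
noncomputable def Ha (n : ℕ) : Submodule ℚ (ℕ → ℂ) :=
  Submodule.span ℚ (tf (χN N) '' {w | PW w ∧ wt w = n ∧ w.head? ≠ some (1, 0)})

lemma Lam_adm {f : ℕ → ℂ} {n : ℕ} {K : ZMod N} (hf : f ∈ Hs (χN N) n K) (x : ℕ × ZMod N) (hx : 1 ≤ x.1)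
    (hx1 : x ≠ (1, 0)) {n' : ℕ} (hn : x.1 + n = n') : Lam x.1 ((χN N).toFun x.2) f ∈ Ha N n' := by
  subst hn
  have h : (Hs (χN N) n K).map (Lam x.1 ((χN N).toFun x.2)) ≤ Ha N (x.1 + n) := by
    rw [Hs, Submodule.map_span, Submodule.span_le]
    rintro _ ⟨_, ⟨w, ⟨h1, h2, h3⟩, rfl⟩, rfl⟩
    rw [SetLike.mem_coe, ← tf_cons]
    refine Submodule.subset_span ⟨x :: w, ⟨h1.cons hx, by rw [wt_cons, h2], ?_⟩, rfl⟩
    rw [List.head?_cons]
    exact fun h => hx1 (Option.some_inj.1 h)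
  exact h ⟨f, hf, rfl⟩

lemma tf_mul_adm (u v : Wd (ZMod N)) (hu : PW u) (hv : PW v) (hu1 : u.head? ≠ some (1, 0))
    (hv1 : v.head? ≠ some (1, 0)) : tf (χN N) u * tf (χN N) v ∈ Ha N (wt u + wt v) := by
  cases u with
  | nil =>
    rw [tf_nil, one_mul, wt_nil, zero_add]
    exact Submodule.subset_span ⟨v, ⟨hv, rfl, hv1⟩, rfl⟩
  | cons x u =>
    cases v with
    | nil =>
      rw [tf_nil, mul_one, wt_nil, add_zero]
      exact Submodule.subset_span ⟨x :: u, ⟨hu, rfl, hu1⟩, rfl⟩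
    | cons y v =>
      rw [List.head?_cons, Ne, Option.some_inj] at hu1 hv1
      rw [tf_cons, tf_cons, Lam_mul, ← tf_cons, ← tf_cons]
      have h1 := tf_mul_aux (χN N) _ u (y :: v) le_rfl hu.tail hv
      have h2 := tf_mul_aux (χN N) _ v (x :: u) le_rfl hv.tail hu
      have h3 := tf_mul_aux (χN N) _ u v le_rfl hu.tail hv.tail
      rw [← (χN N).add]
      refine Submodule.add_mem _ (Submodule.add_mem _ ?_ ?_) ?_
      · refine Lam_adm N h1 x hu.head hu1 ?_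
        simp only [wt_cons]
        omega
      · refine Lam_adm N h2 y hv.head hv1 ?_
        simp only [wt_cons]
        omega
      · have e1 := hu.head
        have e2 := hv.head
        refine Lam_adm N h3 (x.1 + y.1, x.2 + y.2) (by simp only; omega) ?_ ?_
        · intro h
          have := congrArg Prod.fst h
          simp only at this
          omega
        · simp only [wt_cons]
          omega

lemma am_of {w : Wd (ZMod N)} (hw : PW w) (h1 : w.head? ≠ some (1, 0)) : Am (mp (χN N) w) := by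
  have hP : Pn (mp (χN N) w) := fun x hx => by
    obtain ⟨h2, h3⟩ := mp_N N w hw x hx
    exact ⟨h2, Complex.norm_eq_one_of_pow_eq_one h3 hN.out⟩
  cases w with
  | nil => exact trivial
  | cons x u =>
    rw [mp_cons] at hP ⊢
    refine ⟨fun hx hz => h1 ?_, hP⟩
    rw [← head_N, mp_cons, List.head?_cons, Option.some_inj]
    exact Prod.ext hx hz

lemma li_mem {w : Wd (ZMod N)} (hw : PW w) (h1 : w.head? ≠ some (1, 0)) : li (mp (χN N) w) ∈ Zs N (wt w) :=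
  Submodule.subset_span ⟨_, ⟨⟨mp_N N w hw, fun h => h1 ((head_N N w).1 h)⟩, wt_mp _ _⟩, rfl⟩

lemma tf_lim {w : Wd (ZMod N)} (hw : PW w) (h1 : w.head? ≠ some (1, 0)) :
    Tendsto (tf (χN N) w) atTop (𝓝 (li (mp (χN N) w))) :=
  (li_lim (am_of N hw h1)).comp (tendsto_add_atTop_nat 1)

lemma Ha_lim {n : ℕ} {f : ℕ → ℂ} (hf : f ∈ Ha N n) : ∃ l ∈ Zs N n, Tendsto f atTop (𝓝 l) := by
  rw [Ha] at hf
  induction hf using Submodule.span_induction with
  | mem f hf =>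
    obtain ⟨w, ⟨h1, h2, h3⟩, rfl⟩ := hf
    exact ⟨_, h2 ▸ li_mem N h1 h3, tf_lim N h1 h3⟩
  | zero => exact ⟨0, Submodule.zero_mem _, tendsto_const_nhds⟩
  | add f g _ _ hf hg =>
    obtain ⟨a, ha, ha'⟩ := hf
    obtain ⟨b, hb, hb'⟩ := hg
    exact ⟨a + b, Submodule.add_mem _ ha hb, ha'.add hb'⟩
  | smul c f _ hf =>
    obtain ⟨a, ha, ha'⟩ := hf
    exact ⟨c • a, Submodule.smul_mem _ c ha, ha'.const_smul c⟩

lemma li_mul_mem {u v : Wd (ZMod N)} (hu : PW u) (hv : PW v) (hu1 : u.head? ≠ some (1, 0))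
    (hv1 : v.head? ≠ some (1, 0)) : li (mp (χN N) u) * li (mp (χN N) v) ∈ Zs N (wt u + wt v) := by
  obtain ⟨l, hl, h1⟩ := Ha_lim N (tf_mul_adm N u v hu hv hu1 hv1)
  have h2 := (tf_lim N hu hu1).mul (tf_lim N hv hv1)
  rw [tendsto_nhds_unique h2 h1]
  exact hl

lemma Zs_mul {a b : ℕ} {x y : ℂ} (hx : x ∈ Zs N a) (hy : y ∈ Zs N b) : x * y ∈ Zs N (a + b) := by
  have h : (Zs N a : Submodule ℚ ℂ) * Zs N b ≤ Zs N (a + b) := by
    rw [Zs, Zs, Submodule.span_mul_span, Submodule.span_le]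
    rintro _ ⟨_, ⟨u, ⟨⟨hu1, hu2⟩, hu3⟩, rfl⟩, _, ⟨v, ⟨⟨hv1, hv2⟩, hv3⟩, rfl⟩, rfl⟩
    obtain ⟨u', rfl, hu4⟩ := lift_N N u hu1
    obtain ⟨v', rfl, hv4⟩ := lift_N N v hv1
    rw [wt_mp] at hu3 hv3
    rw [← hu3, ← hv3]
    exact li_mul_mem N hu4 hv4 (fun h => hu2 ((head_N N u').2 h)) (fun h => hv2 ((head_N N v').2 h))
  exact h (Submodule.mul_mem_mul hx hy)

end level

end Pool.Agent.H11Z
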