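import Pool.Agent.H11Z.Mul
import Pool.Agent.H11Z.Bk
import Pool.Agent.H11Z.Cd

/-!
# The values of weight one and the lower bounds
-/

set_option autoImplicit false

namespace Pool.Agent.H11Z

open Finset Filter Topology Module
open Pool.Agent.H43L
open Pool.Agent.X90.DM (trunc li)

section level
variable (N : ℕ) [hN : NeZero N]

lemma adm_single {z : ℂ} (hz : z ^ N = 1) (hz1 : z ≠ 1) : Adm N [(1, z)] := by
  refine ⟨fun x hx => ?_, fun h => ?_⟩
  · rw [List.mem_singleton] at hx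
    subst hx
    exact ⟨le_rfl, hz⟩
  · rw [List.head?_cons, Option.some_inj, Prod.mk.injEq] at h
    exact hz1 h.2

lemma log_mem {z : ℂ} (hz : z ^ N = 1) (hz1 : z ≠ 1) : Complex.log (1 - z) ∈ Zs N 1 := by
  have h1 : li [(1, z)] ∈ Zs N 1 := Submodule.subset_span ⟨_, ⟨adm_single N hz hz1, by simp⟩, rfl⟩
  rw [li_one (Complex.norm_eq_one_of_pow_eq_one hz hN.out) hz1] at h1
  simpa using Submodule.neg_mem _ h1

lemma Z1_le : Zs N 1 ≤ logs := by
  rw [Zs, Submodule.span_le]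
  rintro _ ⟨w, ⟨⟨h1, h2⟩, h3⟩, rfl⟩
  cases w with
  | nil => simp at h3
  | cons x u =>
    obtain ⟨g1, g2⟩ := h1 x List.mem_cons_self
    rw [List.map_cons, List.sum_cons] at h3
    cases u with
    | cons y v =>
      have := (h1 y (by simp)).1
      rw [List.map_cons, List.sum_cons] at h3
      omega
    | nil =>
      simp only [List.map_nil, List.sum_nil] at h3
      obtain ⟨a, z⟩ := x
      simp only at g1 g2 h3
      have ha : a = 1 := by omega
      subst ha
      have hz1 : z ≠ 1 := fun h => h2 (by rw [h, List.head?_cons])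
      rw [SetLike.mem_coe, li_one (Complex.norm_eq_one_of_pow_eq_one g2 hN.out) hz1, mem_logs, Complex.exp_neg,
        Complex.exp_log (sub_ne_zero.2 hz1.symm)]
      refine (isAlgebraic_one.sub ?_).inv
      refine IsAlgebraic.of_pow (n := N) (Nat.pos_of_ne_zero hN.out) ?_
      rw [g2]
      exact isAlgebraic_one

lemma pi_mem (h3 : 3 ≤ N) : (Real.pi : ℂ) * Complex.I ∈ Zs N 1 := by
  set ζ : ℂ := Complex.exp (2 * Real.pi * Complex.I / N) with hζ
  have hp : IsPrimitiveRoot ζ N := zeta_prim N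
  have hζ0 : ζ ≠ 0 := Complex.exp_ne_zero _
  have hζ1 : ζ ≠ 1 := hp.ne_one (by omega)
  have hζi : ζ⁻¹ ≠ 1 := fun h => hζ1 (inv_eq_one.1 h)
  have hy := Submodule.sub_mem _ (log_mem N hp.pow_eq_one hζ1)
    (log_mem N (z := ζ⁻¹) (by rw [inv_pow, hp.pow_eq_one, inv_one]) hζi)
  set y : ℂ := Complex.log (1 - ζ) - Complex.log (1 - ζ⁻¹) with hyd
  have hexp : Complex.exp y = -ζ := by
    rw [hyd, Complex.exp_sub, Complex.exp_log (sub_ne_zero.2 hζ1.symm), Complex.exp_log (sub_ne_zero.2 hζi.symm),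
      div_eq_iff (sub_ne_zero.2 hζi.symm)]
    field_simp
    ring
  have h1 : Complex.exp ((2 * N : ℕ) * y) = 1 := by
    rw [Complex.exp_nat_mul, hexp, pow_mul, neg_sq, ← pow_mul, mul_comm, pow_mul, hp.pow_eq_one, one_pow]
  obtain ⟨n, hn⟩ := Complex.exp_eq_one_iff.1 h1
  have hNC : (N : ℂ) ≠ 0 := by exact_mod_cast hN.out
  have h2 : (N : ℂ) * y = n * ((Real.pi : ℂ) * Complex.I) := by
    push_cast at hn
    linear_combination hn / 2
  have hn0 : n ≠ 0 := by
    rintro rfl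
    rw [Int.cast_zero, zero_mul] at h2
    have hy0 : y = 0 := (mul_eq_zero.1 h2).resolve_left hNC
    rw [hy0, Complex.exp_zero] at hexp
    have h4 : ζ ^ 2 = 1 := by
      have : ζ = -1 := by linear_combination hexp
      rw [this]
      norm_num
    exact hp.pow_ne_one_of_pos_of_lt two_ne_zero (by omega) h4
  have hnC : (n : ℂ) ≠ 0 := by exact_mod_cast hn0
  have h5 := Submodule.smul_mem _ ((N : ℚ) / n) hy
  rw [Algebra.smul_def, eq_ratCast] at h5
  convert h5 using 1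
  push_cast
  field_simp
  linear_combination -h2

lemma log_prime_mem (h3 : 3 ≤ N) {q : ℕ} (hq : q.Prime) (hqN : q ∣ N) : ((Real.log q : ℝ) : ℂ) ∈ Zs N 1 := by
  have hp : IsPrimitiveRoot (Complex.exp (2 * Real.pi * Complex.I / q)) q :=
    Complex.isPrimitiveRoot_exp q hq.ne_zero
  set η : ℂ := Complex.exp (2 * Real.pi * Complex.I / q) with hη
  obtain ⟨r, hr⟩ : ∃ r, q = r + 1 := ⟨q - 1, by have := hq.pos; omega⟩
  have hprod : ∏ k ∈ range r, (1 - η ^ (k + 1)) = (r : ℂ) + 1 := by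
    rw [hr] at hp
    exact hp.prod_one_sub_pow_eq_order
  have hne : ∀ k ∈ range r, η ^ (k + 1) ≠ 1 := fun k hk => by
    refine hp.pow_ne_one_of_pos_of_lt (by omega) ?_
    have := mem_range.1 hk
    omega
  have hs : ∑ k ∈ range r, Complex.log (1 - η ^ (k + 1)) ∈ Zs N 1 := by
    refine Submodule.sum_mem _ fun k hk => log_mem N ?_ (hne k hk)
    obtain ⟨m, rfl⟩ := hqN
    rw [← pow_mul, mul_comm, mul_assoc, pow_mul, hp.pow_eq_one, one_pow]
  have hexp : Complex.exp (∑ k ∈ range r, Complex.log (1 - η ^ (k + 1))) = Complex.exp ((Real.log q : ℝ) : ℂ) := by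
    rw [Complex.exp_sum, ← Complex.ofReal_exp, Real.exp_log (by exact_mod_cast hq.pos),
      prod_congr rfl fun k hk => Complex.exp_log (sub_ne_zero.2 (hne k hk).symm), hprod, hr]
    push_cast
    ring
  obtain ⟨n, hn⟩ := Complex.exp_eq_exp_iff_exists_int.1 hexp
  have h5 := Submodule.sub_mem _ hs (Submodule.smul_mem _ ((2 : ℚ) * n) (pi_mem N h3))
  rw [Algebra.smul_def, eq_ratCast, hn] at h5
  convert h5 using 1
  push_cast
  ring

lemma finZ (n : ℕ) : Module.Finite ℚ (Zs N n) := fin_Zs N (Nat.pos_of_ne_zero hN.out) n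

lemma rank_Z1 (h3 : 3 ≤ N) : N.primeFactors.card + 1 ≤ finrank ℚ (Zs N 1) := by
  have := finZ N 1
  have hli := log_primes_pi (ι := N.primeFactors) (fun q => (q : ℕ)) (fun q => Nat.prime_of_mem_primeFactors q.2)
    Subtype.val_injective
  have h1 := finrank_span_eq_card hli
  rw [Fintype.card_option, Fintype.card_coe] at h1
  rw [← h1]
  refine Submodule.finrank_mono ?_
  rw [Submodule.span_le]
  rintro _ ⟨i, rfl⟩
  cases i with
  | none => exact pi_mem N h3
  | some q => exact log_prime_mem N h3 (Nat.prime_of_mem_primeFactors q.2) (Nat.dvd_of_mem_primeFactors q.2)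

/-- the dimension over the algebraic numbers -/
noncomputable def aD (n : ℕ) : ℕ := finrank Qb (Submodule.span Qb (Zs N n : Set ℂ))

lemma aD_le (n : ℕ) : aD N n ≤ finrank ℚ (Zs N n) := by
  have := finZ N n
  exact finrank_span_le _

lemma aD_one : aD N 1 = finrank ℚ (Zs N 1) := by
  have := finZ N 1
  exact finrank_span_logs _ (Z1_le N)

lemma span_ne {n : ℕ} (h : Zs N n ≠ ⊥) : Submodule.span Qb (Zs N n : Set ℂ) ≠ ⊥ := by
  obtain ⟨x, hx, hx0⟩ := Submodule.exists_mem_ne_zero_of_ne_bot h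
  intro h1
  have h2 : x ∈ Submodule.span Qb (Zs N n : Set ℂ) := Submodule.subset_span hx
  rw [h1, Submodule.mem_bot] at h2
  exact hx0 h2

lemma aD_add {a b : ℕ} (ha : Zs N a ≠ ⊥) (hb : Zs N b ≠ ⊥) : aD N a + aD N b ≤ aD N (a + b) + 1 := by
  have := finZ N a
  have := finZ N b
  have := finZ N (a + b)
  have := finite_span_Qb (Zs N a)
  have := finite_span_Qb (Zs N b)
  have := finite_span_Qb (Zs N (a + b))
  refine (cd hQb _ _ (span_ne N ha) (span_ne N hb)).trans (Nat.add_le_add_right (Submodule.finrank_mono ?_) 1)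
  rw [Submodule.span_mul_span, Submodule.span_le]
  rintro _ ⟨x, hx, y, hy, rfl⟩
  exact Submodule.subset_span (Zs_mul N hx hy)

lemma Z_ne_add {a b : ℕ} (ha : Zs N a ≠ ⊥) (hb : Zs N b ≠ ⊥) : Zs N (a + b) ≠ ⊥ := by
  obtain ⟨x, hx, hx0⟩ := Submodule.exists_mem_ne_zero_of_ne_bot ha
  obtain ⟨y, hy, hy0⟩ := Submodule.exists_mem_ne_zero_of_ne_bot hb
  intro h
  have h1 := Zs_mul N hx hy
  rw [h, Submodule.mem_bot] at h1
  exact mul_ne_zero hx0 hy0 h1

lemma Z0_ne : Zs N 0 ≠ ⊥ := by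
  intro h
  have := dim_Z0 N
  rw [h, finrank_bot] at this
  exact zero_ne_one this

lemma Z1_ne (h2 : 2 ≤ N) : Zs N 1 ≠ ⊥ := by
  intro h
  rcases Nat.lt_or_ge N 3 with h3 | h3
  · have hN2 : N = 2 := by omega
    subst hN2
    have := dim_Z1
    rw [h, finrank_bot] at this
    exact zero_ne_one this
  · have h1 := pi_mem N h3
    rw [h, Submodule.mem_bot] at h1
    exact mul_ne_zero (by exact_mod_cast Real.pi_ne_zero) Complex.I_ne_zero h1

lemma aD_pos {n : ℕ} (h : Zs N n ≠ ⊥) : 1 ≤ aD N n := by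
  have := finZ N n
  have := finite_span_Qb (Zs N n)
  have h1 : aD N n ≠ 0 := fun h0 => span_ne N h (Submodule.finrank_eq_zero.1 h0)
  omega

lemma aD_lin {m : ℕ} (hm : Zs N m ≠ ⊥) (k : ℕ) : Zs N (k * m) ≠ ⊥ ∧ k * aD N m + 1 ≤ aD N (k * m) + k := by
  induction k with
  | zero =>
    rw [zero_mul, zero_mul]
    exact ⟨Z0_ne N, by have := aD_pos N (Z0_ne N); omega⟩
  | succ k ih =>
    obtain ⟨h1, h2⟩ := ih
    rw [Nat.succ_mul k m]
    refine ⟨Z_ne_add N h1 hm, ?_⟩
    have := aD_add N h1 hm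
    rw [Nat.succ_mul]
    omega

lemma lin_one (h2 : 2 ≤ N) (w : ℕ) : w * (finrank ℚ (Zs N 1) - 1) + 1 ≤ aD N w := by
  have h := (aD_lin N (Z1_ne N h2) w).2
  have h1 := aD_pos N (Z1_ne N h2)
  rw [aD_one] at h h1
  rw [mul_one] at h
  rw [Nat.mul_sub, mul_one]
  have : w ≤ w * finrank ℚ (Zs N 1) := Nat.le_mul_of_pos_right w h1
  omega

lemma lin_three (h3 : 3 ≤ N) (w : ℕ) : w * N.primeFactors.card + 1 ≤ aD N w := by
  have h := lin_one N (by omega) w
  have h1 := rank_Z1 N h3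
  have : w * N.primeFactors.card ≤ w * (finrank ℚ (Zs N 1) - 1) := Nat.mul_le_mul_left w (by omega)
  omega

end level

lemma pi_sq_mem : ((Real.pi ^ 2 : ℝ) : ℂ) ∈ Zs 2 2 := by
  have k1 : li [(2, 1)] ∈ Zs 2 2 :=
    Submodule.subset_span ⟨_, ⟨⟨by simp, by simp⟩, by simp⟩, rfl⟩
  have := Submodule.smul_mem _ (6 : ℚ) k1
  rw [li_zeta, Rat.smul_def] at this
  convert this using 1
  push_cast
  ring

lemma log_sq_mem : ((Real.log 2 ^ 2 : ℝ) : ℂ) ∈ Zs 2 2 := by
  have h := log_mem 2 (z := -1) (by norm_num) am_m1.2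
  have h1 : Complex.log (1 - -1) = ((Real.log 2 : ℝ) : ℂ) := by
    rw [Complex.ofReal_log (by norm_num)]
    norm_num
  rw [h1] at h
  have := Zs_mul 2 h h
  convert this using 1
  push_cast
  ring

lemma aD_two_two : aD 2 2 = 2 := by
  refine le_antisymm ((aD_le 2 2).trans dim_Z2.le) ?_
  have := finZ 2 2
  have := finite_span_Qb (Zs 2 2)
  have h1 := finrank_span_eq_card sq_indep
  rw [Fintype.card_fin] at h1
  refine (show 2 ≤ _ from h1.ge).trans (Submodule.finrank_mono (Submodule.span_mono ?_))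
  rintro _ ⟨i, rfl⟩
  fin_cases i
  · exact pi_sq_mem
  · exact log_sq_mem

lemma Z2_ne : Zs 2 2 ≠ ⊥ := by
  intro h
  have := dim_Z2
  rw [h, finrank_bot] at this
  exact absurd this (by norm_num)

lemma lin_two (w : ℕ) : w / 2 + 1 ≤ aD 2 w := by
  obtain ⟨h1, h2⟩ := aD_lin 2 Z2_ne (w / 2)
  rw [aD_two_two] at h2
  rcases Nat.even_or_odd' w with ⟨k, rfl | rfl⟩
  · rw [Nat.mul_div_cancel_left k two_pos] at h2 ⊢
    rw [mul_comm k 2] at h2
    omega
  · have e : (2 * k + 1) / 2 = k := by omega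
    rw [e] at h1 h2 ⊢
    have h3 := aD_add 2 h1 (Z1_ne 2 le_rfl)
    have h4 := aD_pos 2 (Z1_ne 2 le_rfl)
    rw [mul_comm k 2] at h2 h3
    omega

end Pool.Agent.H11Z
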