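import Mathlib
import Pool.Agent.H43L.Dm

/-!
# The shuffle product of multiple polylogarithms in one variable
-/

set_option autoImplicit false

namespace Pool.Agent.H11Z

open Finset Filter Topology
open Pool.Agent.H43L
open Pool.Agent.X90.DM (trunc li)

abbrev PS := PowerSeries ℂ

/-- the factors: `X / (1 - X)` and `1` -/
noncomputable def gg : Bool → PS
  | true => PowerSeries.mk fun n => if n = 0 then 0 else 1
  | false => 1

/-- the integration operators -/
noncomputable def TT (e : Bool) (F : PS) : PS := PowerSeries.mk fun n => PowerSeries.coeff n (gg e * F) / n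

lemma TT0 (e : Bool) (F : PS) : PowerSeries.coeff 0 (TT e F) = 0 := by
  rw [TT, PowerSeries.coeff_mk, Nat.cast_zero, div_zero]

/-- the Euler operator -/
noncomputable def th (F : PS) : PS := PowerSeries.mk fun n => n * PowerSeries.coeff n F

lemma th_mul (F H : PS) : th (F * H) = th F * H + F * th H := by
  ext n
  rw [map_add, th, PowerSeries.coeff_mk, PowerSeries.coeff_mul, PowerSeries.coeff_mul, PowerSeries.coeff_mul,
    mul_sum, ← sum_add_distrib]
  refine sum_congr rfl fun p hp => ?_
  rw [th, th, PowerSeries.coeff_mk, PowerSeries.coeff_mk, ← mem_antidiagonal.1 hp]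
  push_cast
  ring

lemma th_add (F H : PS) : th (F + H) = th F + th H := by
  ext n
  simp only [th, PowerSeries.coeff_mk, map_add]
  ring

lemma th_inj {F H : PS} (h : th F = th H) (h0 : PowerSeries.coeff 0 F = PowerSeries.coeff 0 H) : F = H := by
  ext n
  rcases Nat.eq_zero_or_pos n with rfl | hn
  · exact h0
  · have h1 := congrArg (PowerSeries.coeff n) h
    rw [th, th, PowerSeries.coeff_mk, PowerSeries.coeff_mk] at h1
    exact mul_left_cancel₀ (by exact_mod_cast hn.ne') h1

/-- `e` may be applied to `F` -/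
def Ok (e : Bool) (F : PS) : Prop := e = true ∨ PowerSeries.coeff 0 F = 0

lemma th_TT {e : Bool} {F : PS} (h : Ok e F) : th (TT e F) = gg e * F := by
  ext n
  rw [th, TT, PowerSeries.coeff_mk, PowerSeries.coeff_mk]
  rcases Nat.eq_zero_or_pos n with rfl | hn
  · rw [Nat.cast_zero, zero_mul, PowerSeries.coeff_mul, Finset.Nat.antidiagonal_zero, sum_singleton]
    rcases h with rfl | h
    · rw [gg, PowerSeries.coeff_mk, if_pos rfl, zero_mul]
    · simp only [h, mul_zero]
  · rw [mul_div_cancel₀]
    exact_mod_cast hn.ne'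

lemma ok_mul_right {e : Bool} {F H : PS} (h : PowerSeries.coeff 0 H = 0) : Ok e (F * H) := by
  right
  rw [PowerSeries.coeff_mul, Finset.Nat.antidiagonal_zero, sum_singleton]
  simp only [h, mul_zero]

lemma rb {e f : Bool} {F H : PS} (h1 : Ok e F) (h2 : Ok f H) :
    TT e F * TT f H = TT e (F * TT f H) + TT f (TT e F * H) := by
  refine th_inj ?_ ?_
  · rw [th_mul, th_add, th_TT h1, th_TT h2, th_TT (ok_mul_right (TT0 f H)),
      th_TT (by rw [mul_comm]; exact ok_mul_right (TT0 e F))]
    ring
  · rw [map_add, TT0, TT0, PowerSeries.coeff_mul, Finset.Nat.antidiagonal_zero, sum_singleton]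
    simp only [TT0, mul_zero, add_zero]

lemma TT_add (e : Bool) (F H : PS) : TT e (F + H) = TT e F + TT e H := by
  ext n
  simp only [TT, PowerSeries.coeff_mk, mul_add, map_add, add_div]

lemma TT_smul (e : Bool) (c : ℚ) (F : PS) : TT e (c • F) = c • TT e F := by
  rw [← Rat.cast_smul_eq_qsmul ℂ c F, ← Rat.cast_smul_eq_qsmul ℂ c (TT e F)]
  ext n
  simp only [TT, PowerSeries.coeff_mk, mul_smul_comm, map_smul, smul_eq_mul]
  ring

/-- the series of a word -/
noncomputable def VV : List Bool → PS
  | [] => 1
  | e :: w => TT e (VV w)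

/-- the last letter is `true` -/
def Gd : List Bool → Prop
  | [] => True
  | e :: w => (w = [] → e = true) ∧ Gd w

/-- the span -/
noncomputable def SS (k : ℕ) : Submodule ℚ PS := Submodule.span ℚ (VV '' {w | Gd w ∧ w.length = k})

lemma VV0 {w : List Bool} (h : w ≠ []) : PowerSeries.coeff 0 (VV w) = 0 := by
  cases w with
  | nil => exact absurd rfl h
  | cons e w => exact TT0 _ _

lemma Gd.ok {e : Bool} {w : List Bool} (h : Gd (e :: w)) : Ok e (VV w) := by
  by_cases hw : w = []
  · exact Or.inl (h.1 hw)
  · exact Or.inr (VV0 hw)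

lemma TT_mem (e : Bool) {k : ℕ} (hk : 1 ≤ k) {F : PS} (hF : F ∈ SS k) : TT e F ∈ SS (k + 1) := by
  rw [SS] at hF
  induction hF using Submodule.span_induction with
  | mem F hF =>
    obtain ⟨w, ⟨h1, h2⟩, rfl⟩ := hF
    refine Submodule.subset_span ⟨e :: w, ⟨⟨fun h => ?_, h1⟩, by rw [List.length_cons, h2]⟩, rfl⟩
    rw [h, List.length_nil] at h2
    omega
  | zero =>
    have : TT e 0 = 0 := by
      ext n
      simp [TT]
    rw [this]
    exact Submodule.zero_mem _
  | add F H _ _ h1 h2 =>
    rw [TT_add]
    exact Submodule.add_mem _ h1 h2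
  | smul c F _ h =>
    rw [TT_smul]
    exact Submodule.smul_mem _ c h

lemma VV_mul (n : ℕ) : ∀ u v : List Bool, u.length + v.length ≤ n → Gd u → Gd v →
    VV u * VV v ∈ SS (u.length + v.length) := by
  induction n with
  | zero =>
    intro u v h _ _
    have h1 : u = [] := List.eq_nil_of_length_eq_zero (by omega)
    have h2 : v = [] := List.eq_nil_of_length_eq_zero (by omega)
    subst h1 h2
    rw [VV, one_mul]
    exact Submodule.subset_span ⟨[], ⟨trivial, rfl⟩, rfl⟩
  | succ n ih =>
    intro u v h hu hv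
    cases u with
    | nil =>
      rw [VV, one_mul, List.length_nil, zero_add]
      exact Submodule.subset_span ⟨v, ⟨hv, rfl⟩, rfl⟩
    | cons e u =>
      cases v with
      | nil =>
        rw [VV, VV, mul_one, List.length_nil, add_zero]
        exact Submodule.subset_span ⟨e :: u, ⟨hu, rfl⟩, rfl⟩
      | cons f v =>
        rw [List.length_cons, List.length_cons] at h
        have h1 := ih u (f :: v) (by rw [List.length_cons]; omega) hu.2 hv
        have h2 := ih (e :: u) v (by rw [List.length_cons]; omega) hu hv.2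
        have h3 := TT_mem e (by rw [List.length_cons]; omega) h1
        have h4 := TT_mem f (by rw [List.length_cons]; omega) h2
        have h5 := rb hu.ok hv.ok
        have e1 : (e :: u).length + (f :: v).length = u.length + (f :: v).length + 1 := by
          simp only [List.length_cons]
          omega
        have e2 : (e :: u).length + (f :: v).length = (e :: u).length + v.length + 1 := by
          simp only [List.length_cons]
          omega
        rw [VV, VV, h5]
        refine Submodule.add_mem _ ?_ ?_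
        · rw [e1]
          exact h3
        · rw [e2]
          exact h4

/-- the series of the values -/
noncomputable def ser (a : ℕ) (u : List (ℕ × ℂ)) : PS := PowerSeries.mk fun n => 1 / (n : ℂ) ^ a * trunc u n

lemma coeff_ser (a : ℕ) (u : List (ℕ × ℂ)) (n : ℕ) : PowerSeries.coeff n (ser a u) = 1 / (n : ℂ) ^ a * trunc u n :=
  PowerSeries.coeff_mk _ _

lemma ser_zero (a : ℕ) (u : List (ℕ × ℂ)) : TT false (ser a u) = ser (a + 1) u := by
  ext n
  rw [TT, gg, one_mul, PowerSeries.coeff_mk, ser, ser, PowerSeries.coeff_mk, PowerSeries.coeff_mk, pow_succ]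
  rcases eq_or_ne (n : ℂ) 0 with h | h
  · rw [h]
    simp
  · field_simp

lemma coeff_gg (F : PS) (n : ℕ) : PowerSeries.coeff n (gg true * F) = ∑ j ∈ range n, PowerSeries.coeff j F := by
  rw [PowerSeries.coeff_mul, Nat.sum_antidiagonal_eq_sum_range_succ (fun i j =>
    PowerSeries.coeff i (gg true) * PowerSeries.coeff j F), sum_range_succ', ← sum_range_reflect]
  simp only [gg, PowerSeries.coeff_mk, if_true, zero_mul, add_zero]
  refine sum_congr rfl fun j hj => ?_
  have := mem_range.1 hj
  rw [if_neg (by omega), one_mul]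
  congr 2
  omega

lemma ser_one {a : ℕ} (ha : 1 ≤ a) (u : List (ℕ × ℂ)) : TT true (ser a u) = ser 1 ((a, 1) :: u) := by
  ext n
  rw [TT, PowerSeries.coeff_mk, coeff_gg, coeff_ser, pow_one, trunc]
  rcases Nat.eq_zero_or_pos n with rfl | hn
  · simp
  · have h1 : ∑ j ∈ range n, PowerSeries.coeff j (ser a u) = ∑ j ∈ Ico 1 n, (1 : ℂ) ^ j / (j : ℂ) ^ a * trunc u j := by
      rw [range_eq_Ico, sum_eq_sum_Ico_succ_bot hn, coeff_ser, Nat.cast_zero,
        zero_pow (by omega), div_zero, zero_mul, zero_add]
      refine sum_congr rfl fun j _ => ?_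
      rw [coeff_ser, one_pow]
    rw [h1]
    ring

lemma ser_nil : TT true 1 = ser 1 [] := by
  ext n
  rw [TT, PowerSeries.coeff_mk, coeff_gg, coeff_ser, pow_one, trunc, mul_one]
  rcases Nat.eq_zero_or_pos n with rfl | hn
  · simp
  · congr 1
    rw [range_eq_Ico, sum_eq_sum_Ico_succ_bot hn, PowerSeries.coeff_zero_one]
    rw [sum_eq_zero fun j hj => ?_, add_zero]
    rw [PowerSeries.coeff_one, if_neg]
    have := (mem_Ico.1 hj).1
    omega

lemma VV_ser (w : List Bool) (hw : w ≠ []) (h : Gd w) : ∃ a u, 1 ≤ a ∧ Un u ∧ a + (u.map Prod.fst).sum = w.length ∧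
    VV w = ser a u := by
  induction w with
  | nil => exact absurd rfl hw
  | cons e w ih =>
    by_cases hw' : w = []
    · subst hw'
      have he := h.1 rfl
      subst he
      exact ⟨1, [], le_rfl, un_nil, by simp, by rw [VV, VV, ser_nil]⟩
    · obtain ⟨a, u, h1, h2, h3, h4⟩ := ih hw' h.2
      cases e with
      | true =>
        refine ⟨1, (a, 1) :: u, le_rfl, ?_, ?_, by rw [VV, h4, ser_one h1]⟩
        · intro x hx
          rcases List.mem_cons.1 hx with rfl | hx
          · exact ⟨h1, rfl⟩
          · exact h2 x hx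
        · rw [List.map_cons, List.sum_cons, List.length_cons, ← h3]
          simp only
          omega
      | false => exact ⟨a + 1, u, by omega, h2, by rw [List.length_cons, ← h3]; omega, by rw [VV, h4, ser_zero]⟩

lemma ser_VV (u : List (ℕ × ℂ)) : Un u → ∀ a, 1 ≤ a → ∃ w, w ≠ [] ∧ Gd w ∧ w.length = a + (u.map Prod.fst).sum ∧
    VV w = ser a u := by
  induction u with
  | nil =>
    intro _ a ha
    induction a, ha using Nat.le_induction with
    | base => exact ⟨[true], by simp, ⟨fun _ => rfl, trivial⟩, by simp, by rw [VV, VV, ser_nil]⟩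
    | succ a ha ih =>
      obtain ⟨w, h1, h2, h3, h4⟩ := ih
      exact ⟨false :: w, by simp, ⟨fun h => absurd h h1, h2⟩, by rw [List.length_cons, h3]; omega,
        by rw [VV, h4, ser_zero]⟩
  | cons x u ihu =>
    intro hu a ha
    obtain ⟨hx1, hx2⟩ := hu x List.mem_cons_self
    obtain ⟨w0, g1, g2, g3, g4⟩ := ihu (fun y hy => hu y (List.mem_cons_of_mem _ hy)) x.1 hx1
    have hx : x = (x.1, 1) := Prod.ext rfl hx2
    induction a, ha using Nat.le_induction with
    | base =>
      refine ⟨true :: w0, by simp, ⟨fun _ => rfl, g2⟩, ?_, ?_⟩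
      · rw [List.length_cons, g3, List.map_cons, List.sum_cons]
        omega
      · rw [VV, g4, ser_one hx1, ← hx]
    | succ a ha ih =>
      obtain ⟨w, h1, h2, h3, h4⟩ := ih
      exact ⟨false :: w, by simp, ⟨fun h => absurd h h1, h2⟩, by rw [List.length_cons, h3]; omega,
        by rw [VV, h4, ser_zero]⟩

end Pool.Agent.H11Z
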